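import Mathlib
import Pool.Agent.H16.Sand

namespace Pool.Agent.Results.MP_f0ff61_co.Counter

open Matrix Pool.Agent.H16.Sand

/-- The group `F_2^r`. -/
abbrev V (r : ℕ) := Fin r → ZMod 2

/-- The Laplacian of the Cayley multigraph with `μ u` edges between `w` and `w + u` (`u ≠ 0`). -/
def lap {r : ℕ} (μ : V r → ℕ) : Matrix (V r) (V r) ℤ := fun u v =>
  if u = v then ∑ w ∈ {w | w ≠ 0}, (μ w : ℤ) else -μ (u + v)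

/-- The cokernel of the Laplacian. -/
abbrev coker {r : ℕ} (μ : V r → ℕ) := (V r → ℤ) ⧸ LinearMap.range (lap μ).mulVecLin

/-- The sandpile group: the torsion part of the cokernel of the Laplacian. -/
abbrev K {r : ℕ} (μ : V r → ℕ) := Submodule.torsion ℤ (coker μ)

/-- generator multiset with gcd `1`: no copy of `0`, the support spans, gcd of multiplicities `1` -/
def Gen {r : ℕ} (μ : V r → ℕ) : Prop :=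
  μ 0 = 0 ∧ Submodule.span (ZMod 2) {u | μ u ≠ 0} = ⊤ ∧ Finset.univ.gcd μ = 1

/-- the eigenvalue `λ_u = 2 #{i : u · v_i = 1}` -/
def lam {r : ℕ} (μ : V r → ℕ) (u : V r) : ℕ := 2 * ∑ v with u ⬝ᵥ v = 1, μ v

lemma sp {r : ℕ} (μ : V r → ℕ) (h : ∀ u, μ u ≠ 0 ∨ ∃ a b, μ a ≠ 0 ∧ μ b ≠ 0 ∧ u = a + b) :
    Submodule.span (ZMod 2) {u | μ u ≠ 0} = ⊤ := eq_top_iff.2 fun u _ => by
  rcases h u with h | ⟨a, b, ha, hb, rfl⟩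
  · exact Submodule.subset_span h
  · exact add_mem (Submodule.subset_span ha) (Submodule.subset_span hb)

/-- Isomorphic sandpile groups. -/
def Iso {r : ℕ} (μ ν : V r → ℕ) : Prop := Nonempty (K μ ≃+ K ν)

def ix (u : V 3) : Fin 8 := ⟨(u 0).val + 2 * (u 1).val + 4 * (u 2).val, by
  have := (u 0).val_lt; have := (u 1).val_lt; have := (u 2).val_lt; omega⟩

def M (A : Matrix (Fin 8) (Fin 8) ℤ) : Matrix (V 3) (V 3) ℤ := A.submatrix ix ix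
def P₁ := M !![-1, 0, 0, 0, 0, 0, 0, 0; 0, 0, 0, -1, 0, 0, 0, 0; -1, 0, 0, -2, 1, 0, 0, 0; -5, 1, 0, 3, 3, 0, 0, 0; 15, -3, 1, -29, 0, 0, 0, 0; 20, -4, 1, -29, -5, 1, 0, 0; -4, 1, 0, 5, 1, 0, 1, 0; 1, 1, 1, 1, 1, 1, 1, 1]
def P'₁ := M !![-1, 0, 0, 0, 0, 0, 0, 0; -2, 9, -3, 1, 0, 0, 0, 0; 9, -2, -9, 3, 1, 0, 0, 0; 0, -1, 0, 0, 0, 0, 0, 0; -1, -2, 1, 0, 0, 0, 0, 0; -2, -1, 2, 1, -1, 1, 0, 0; -1, -2, 2, -1, 0, 0, 1, 0; -2, -1, 7, -4, 0, -1, -1, 1]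
def Q₁ := M !![0, 0, 0, 0, 0, 0, 0, 1; 0, 1, -1, 1, 1, 0, 1, 1; 1, 0, -2, 2, 5, 0, 0, 1; 0, 0, 0, 0, 0, 0, 1, 1; 0, 0, 0, 0, 1, -1, 0, 1; 0, 0, 0, 1, -4, 5, 1, 1; 0, 0, 0, 0, 0, 1, 6, 1; 0, 0, 1, -2, 1, -5, -5, 1]
def Q'₁ := M !![-9, 0, 1, 2, 1, 2, 1, 2; 2, 1, 0, -9, 2, 1, 2, 1; -3, 0, 0, -9, 7, 2, 2, 1; -9, 0, 0, 5, 4, 1, -1, 0; 4, 0, 0, -6, 1, 0, 1, 0; 5, 0, 0, -6, 0, 0, 1, 0; -1, 0, 0, 1, 0, 0, 0, 0; 1, 0, 0, 0, 0, 0, 0, 0]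
def d₁ (u : V 3) : ℕ := ![1, 1, 2, 6, 48, 48, 48, 0] (ix u)
def P₂ := M !![-1, 0, 0, 0, 0, 0, 0, 0; 1, 0, -1, 0, 0, 0, 0, 0; 1, 0, 0, -1, 0, 0, 0, 0; -19, -1, 5, 5, 0, 0, 0, 0; -6, 0, 0, 5, 1, 0, 0, 0; 0, 0, -5, 5, 1, -1, 0, 0; 4, -1, -6, -1, -1, -2, -1, 0; 1, 1, 1, 1, 1, 1, 1, 1]
def P'₂ := M !![-1, 0, 0, 0, 0, 0, 0, 0; 9, -5, -5, -1, 0, 0, 0, 0; -1, -1, 0, 0, 0, 0, 0, 0; -1, 0, -1, 0, 0, 0, 0, 0; -1, 0, 5, 0, 1, 0, 0, 0; -1, 5, 0, 0, 1, -1, 0, 0; -3, 1, 1, 1, -3, 2, -1, 0; -1, 0, 0, 0, 1, -1, 1, 1]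
def Q₂ := M !![0, 0, 0, 0, 0, 0, 1, 1; 1, -1, -1, -1, -1, 3, -1, 1; 0, 0, 0, 0, 0, 0, 0, 1; 0, 0, 0, 0, 0, 1, 0, 1; 0, 0, 1, 0, 1, 1, 0, 1; 0, 1, 0, 0, 1, -4, 0, 1; 0, 0, 0, 1, -4, 11, -5, 1; 0, 0, 0, 0, 1, -4, 5, 1]
def Q'₂ := M !![-9, 1, 1, 1, 1, 1, 1, 3; 5, 0, -5, 0, 0, 1, 0, -1; 5, 0, 0, -5, 1, 0, 0, -1; -15, 0, 5, 5, 0, 0, 1, 4; -5, 0, 0, 4, 0, 0, 0, 1; 0, 0, -1, 1, 0, 0, 0, 0; 1, 0, -1, 0, 0, 0, 0, 0; 0, 0, 1, 0, 0, 0, 0, 0]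
def d₂ (u : V 3) : ℕ := ![1, 2, 2, 12, 12, 48, 48, 0] (ix u)
def μ₀ (u : V 3) : ℕ := ![0, 0, 1, 2, 1, 2, 1, 2] (ix u)
def ν₀ (u : V 3) : ℕ := ![0, 1, 1, 1, 1, 1, 1, 3] (ix u)

lemma cc (d : ℕ) (h : d ∈ ({0, 1, 2, 6, 12, 48} : Finset ℕ)) :
    Nat.card {x : ZMod d // 2 • x = 0} = if d < 2 then 1 else 2 := by
  simp only [Finset.mem_insert, Finset.mem_singleton] at h
  rcases h with rfl | rfl | rfl | rfl | rfl | rfl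
  · exact c0
  all_goals (rw [Nat.card_eq_fintype_card]; decide +kernel)

theorem result : ∃ μ ν : V 3 → ℕ, Gen μ ∧ Gen ν ∧ Set.range (lam μ) = Set.range (lam ν) ∧
    Finset.univ.val.map (lam μ) = Finset.univ.val.map (lam ν) ∧ ¬ Iso μ ν := by
  have h : Finset.univ.val.map (lam μ₀) = Finset.univ.val.map (lam ν₀) := by decide +kernel
  refine ⟨μ₀, ν₀, ⟨by decide, sp _ (by decide +kernel), by decide +kernel⟩,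
    ⟨by decide, sp _ (by decide +kernel), by decide +kernel⟩, ?_, h, fun ⟨e⟩ => ?_⟩
  · ext x
    simpa using (show x ∈ Finset.univ.val.map (lam μ₀) ↔ x ∈ Finset.univ.val.map (lam ν₀) by
      rw [h])
  obtain ⟨e₁⟩ := snf (L := lap μ₀) (P := P₁) (P' := P'₁) (Q := Q₁) (Q' := Q'₁) (d := d₁)
    (by decide +kernel) (by decide +kernel) (by decide +kernel)
  obtain ⟨e₂⟩ := snf (L := lap ν₀) (P := P₂) (P' := P'₂) (Q := Q₂) (Q' := Q'₂) (d := d₂)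
    (by decide +kernel) (by decide +kernel) (by decide +kernel)
  have a := Nat.card_congr (e.toEquiv.subtypeEquiv (p := fun x => 2 • x = 0)
    (q := fun x => 2 • x = 0) fun x => by
      change _ ↔ 2 • e x = 0
      rw [← map_nsmul, map_eq_zero_iff _ e.injective])
  rw [two_tors e₁, two_tors e₂, Finset.prod_congr rfl fun u _ => cc (d₁ u) (by revert u; decide),
    Finset.prod_congr rfl fun u _ => cc (d₂ u) (by revert u; decide)] at a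
  revert a
  decide +kernel

end Pool.Agent.Results.MP_f0ff61_co.Counter
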